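import Pool.Agent.HG.Final

/-!
# Rank equals Heegaard genus for all once-punctured torus bundles

`HG.Mon` is the group generated by the two Dehn twists of the once-punctured torus, acting on its
fundamental group `HG.F2` (free on `x`, `y`; the boundary is `[x, y]`). `HG.Bundle φ` is the
fundamental group of the bundle over the circle with monodromy `φ`. `HG.mat φ` is the matrix of
`φ` on the abelianisation. `HG.genusTorus` is the Heegaard genus of a manifold with one torus
boundary component, in terms of gluing maps: a splitting of genus `g` into a handlebody and a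
compression body is an automorphism `α` of the surface group of genus `g`, and the fundamental
group is the quotient by all `b i` and by `α (b i)` for all but one `i`.
-/

namespace Pool.Agent.Results.MP_6ef3a5_gt.PuncturedTorusBundles

open HG

/-- the determinant of the pair `(v, A v)`, `A` the matrix of the monodromy -/
def pairDet (φ : MulAut F2) (v : Fin 2 → ℤ) : ℤ :=
  (Matrix.of ![v, (mat φ).mulVec v]).det

theorem pairDet_eq (φ : MulAut F2) (v : Fin 2 → ℤ) : pairDet φ v = dvA φ (v 0) (v 1) := by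
  have h0 : (mat φ).mulVec v 0 = mat φ 0 0 * v 0 + mat φ 0 1 * v 1 := by
    simp [Matrix.mulVec, dotProduct, Fin.sum_univ_two]
  have h1 : (mat φ).mulVec v 1 = mat φ 1 0 * v 0 + mat φ 1 1 * v 1 := by
    simp [Matrix.mulVec, dotProduct, Fin.sum_univ_two]
  rw [pairDet, Matrix.det_fin_two, dvA]
  show v 0 * (mat φ).mulVec v 1 - v 1 * (mat φ).mulVec v 0 = _
  rw [h0, h1]

theorem exists_iff (φ : MulAut F2) :
    (∃ v : Fin 2 → ℤ, |pairDet φ v| = 1) ↔ ∃ p q : ℤ, IsUnit (dvA φ p q) := by
  constructor
  · rintro ⟨v, hv⟩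
    rw [pairDet_eq] at hv
    exact ⟨v 0, v 1, Int.isUnit_iff_abs_eq.2 hv⟩
  · rintro ⟨p, q, h⟩
    refine ⟨![p, q], ?_⟩
    rw [pairDet_eq]
    exact Int.isUnit_iff_abs_eq.1 h

/-- **Rank equals Heegaard genus for every once-punctured torus bundle.** -/
theorem result (φ : MulAut F2) (hφ : φ ∈ Mon) :
    rk (Bundle φ) = genusTorus (Bundle φ) ∧
    (rk (Bundle φ) = 2 ∨ rk (Bundle φ) = 3) ∧
    (rk (Bundle φ) = 2 ↔ ∃ v : Fin 2 → ℤ, |pairDet φ v| = 1) ∧
    (rk (Bundle φ) = 2 ↔
      Nonempty (Bundle φ ≃* PresentedGroup {oneRel (mat φ).trace})) := by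
  obtain ⟨h1, h2, h3⟩ := two_iff hφ
  have hrk : rk (Bundle φ) = 2 ↔ GenBy (Bundle φ) 2 := by
    constructor
    · intro h
      by_contra hn
      rw [rk_eq_three hφ hn] at h
      omega
    · exact rk_eq_two
  refine ⟨?_, ?_, ?_, ?_⟩
  · by_cases h : GenBy (Bundle φ) 2
    · rw [rk_eq_two h, genus_eq_two (h2.1 h)]
    · rw [rk_eq_three hφ h, genus_eq_three hφ h]
  · by_cases h : GenBy (Bundle φ) 2
    · exact Or.inl (rk_eq_two h)
    · exact Or.inr (rk_eq_three hφ h)
  · rw [hrk, h1, exists_iff]
  · rw [hrk, h3]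

end Pool.Agent.Results.MP_6ef3a5_gt.PuncturedTorusBundles
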